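import Pool.Agent.Helper3.T5.Defs
import Pool.Agent.Helper11.T5.Defs
import Pool.Agent.Helper63.ET.MesoPrice

/-!
# T5a, block J0: the label level of a pair of states is an instance of `MP`

`mp m l' l`: two used states `l' < l` of one era.  The family `fam (era l)` grows, the family
`fam (era l + 2)` is hashed by it in all phases of the era.
-/

set_option autoImplicit false

namespace Pool.Agent.Helper96.T5

open Finset Pool.Agent.Helper27.T4 Pool.Agent.Helper27.T5
open Pool.Agent.Helper5.ET hiding Key Mk keysOf AA Rp vlo vhi bkey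
open Pool.Agent.Helper22.HW hiding fam
open Pool.Agent.Helper39.T5 Pool.Agent.Helper11.T5 Pool.Agent.Helper3.T5

/-- the label level of the pair of states `l' < l` -/
noncomputable def mp (m l' l : ℕ) : MP (Fin 3) Key where
  p := pr
  c := av l
  c' := av l'
  e := av (ef m 1 l)
  e' := av (ef m 1 l')
  X := X1 l
  X' := X1 l'
  pre := pre l
  pre' := pre l'
  key := fun i x => hkey l 1 i (mask (pre l i) x)
  key' := fun i x => hkey l' 1 i (mask (pre l' i) x)
  rk := rk (ordK l)
  P := {fam (era l)}
  R := fam (era l + 2)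

/-! ## first facts -/

theorem hkey_inj {l i j : ℕ} {f g : Fin 3} {x y : Fin 3 → ℕ} (h : hkey l i f x = hkey l j g y) :
    i = j ∧ f = g ∧ x = y := by
  unfold hkey at h
  simp only [Prod.mk.injEq, true_and] at h
  exact ⟨h.1, Fin.ext h.2.1, h.2.2⟩

theorem mask_congr {P : Finset (Fin 3)} {x y : Fin 3 → ℕ} (h : ∀ j ∈ P, x j = y j) :
    mask P x = mask P y := by
  funext g
  unfold mask
  split_ifs with hg
  · exact h g hg
  · rfl

theorem mask_eq {P : Finset (Fin 3)} {x y : Fin 3 → ℕ} (h : mask P x = mask P y) :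
    ∀ j ∈ P, x j = y j := by
  intro j hj
  have := congrFun h j
  unfold mask at this
  rwa [if_pos hj, if_pos hj] at this

theorem mem_X1 {l : ℕ} {x : Fin 3 → ℕ} (h : x ∈ X1 l) (i : Fin 3) :
    (x i).Prime ∧ (x i).Coprime (pr i) ∧ x i ^ 2 < pr i ^ av l i ∧ x i < pr i ^ av l i := by
  unfold X1 TT at h
  rw [Fintype.mem_piFinset] at h
  have h1 := h i
  unfold T1 at h1
  simp only [mem_filter, mem_range] at h1
  tauto

/-- the growing family is hashed into the fresh family in every phase -/
theorem fam_mem_pre (l : ℕ) : fam (era l) ∈ pre l (fam (era l + 2)) := by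
  rcases ordK_cases l with h | h
  · rw [← h, pre_second]
    exact mem_singleton_self _
  · have hi : ¬ iso l := by
      intro hi
      have := ordK_of_iso hi
      omega
    have e1 : fam (era l + 2) = fam (ordK l + 1) := by rw [h]
    have e2 : fam (era l) = fam (ordK l + 2) := by
      rw [h, ← fam_add_three (era l)]
    rw [e1, pre_third hi, e2]
    exact mem_insert_of_mem (mem_singleton_self _)

theorem fam_ne (j : ℕ) : fam (j + 2) ≠ fam j := (fam_ne_succ2 j).symm

/-- the order of the upper state is good for both -/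
theorem rank_lower {l' l : ℕ} (h0 : bb 0 ≤ l') (h : l' ≤ l) (he : era l' = era l)
    (hs : 60 * (l - l') ≤ l) {i j : Fin 3} (hj : j ∈ pre l' i) :
    rk (ordK l) j < rk (ordK l) i := by
  rw [mem_pre] at hj
  obtain ⟨h1, h2⟩ := hj
  rcases phase_cases h0 h hs with ⟨-, h3, -⟩ | ⟨-, h3, h4, -, -⟩ | ⟨-, h3, h4, h5, -⟩ | ⟨h3, -⟩
  · rwa [← h3]
  · rw [h4, ← h3]
    exact h2
  · have h6 : rk (ordK l') i ≠ 2 := fun hc => h1 ⟨h5, hc⟩
    have h7 := rk_lt (ordK l') i
    have h8 : rk (ordK l') i = 1 := by omega
    have h9 : rk (ordK l') j = 0 := by omega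
    have e1 := eq_fam_of_rk_one h8
    have e2 := eq_fam_of_rk_zero h9
    rw [h3] at e1 e2
    rw [e1, e2, h4]
    have e3 := rk_prev (era l)
    have e4 : rk (era l + 1) (fam (era l + 2)) = 2 := rk_next (era l + 1)
    omega
  · omega

/-! ## the instance -/

section

variable {m l' l : ℕ}

theorem av_front (hm : 1 < m) (hb : 10 * m ≤ la (era l)) (hu : used m l) (f : Fin 3)
    (hf : f ≠ fam (era l)) : av (ef m 1 l) f = av l f := by
  have := cnt_ef (i := 1) hu hb le_rfl hm f
  rw [if_neg hf] at this
  exact this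

theorem av_pair (hl : l' ≤ l) (he : era l' = era l) (f : Fin 3) (hf : f ≠ fam (era l)) :
    av l f = av l' f := by
  have := cnt_same_era hl he f
  rw [if_neg hf] at this
  exact this

theorem av_mono {y z : ℕ} (h : y ≤ z) (f : Fin 3) : av y f ≤ av z f := by
  have := cnt_sub f h
  unfold av
  omega

/-- **the requirements of block J0** for two used states of one era -/
theorem mp_ok (hm : 1 < m) (hb : 10 * m ≤ la (era l)) (hu : used m l) (hu' : used m l')
    (he : era l' = era l) (hl : l' < l) (hs : 60 * (l - l') ≤ l) : (mp m l' l).Ok (Mk m) := by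
  have hb' : 10 * m ≤ la (era l') := by rw [he]; exact hb
  have h0 : bb 0 ≤ l' := used_bb_zero hu'
  have hR : fam (era l + 2) ≠ fam (era l) := fam_ne _
  have e1 : av (ef m 1 l) (fam (era l + 2)) = av l (fam (era l + 2)) := av_front hm hb hu _ hR
  have e2 : av (ef m 1 l') (fam (era l + 2)) = av l' (fam (era l + 2)) := by
    apply av_front hm hb' hu'
    rw [he]
    exact hR
  have e3 : av l (fam (era l + 2)) = av l' (fam (era l + 2)) := av_pair hl.le he _ hR
  exact
    { prime := pr_prime
      odd := pr_ne_two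
      inj := pr_inj
      adm := fun x hx i => by
        obtain ⟨h1, h2, h3, -⟩ := mem_X1 hx i
        exact ⟨h2, Or.inr ⟨h1, h3⟩⟩
      adm' := fun x hx i => by
        obtain ⟨h1, h2, h3, -⟩ := mem_X1 hx i
        exact ⟨h2, Or.inr ⟨h1, h3⟩⟩
      cc := av_mono hl.le
      ce := av_mono (lt_ef hb hm).le
      ce' := av_mono (lt_ef hb' hm).le
      ee := av_mono (ef_mono m 1 hl.le he)
      rank := by
        intro i j hj
        rcases mem_union.1 hj with h | h
        · exact ((mem_pre l i j).1 h).2
        · exact rank_lower h0 hl.le he hs h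
      dep := fun i x y h => by
        exact congrArg (hkey l 1 i) (mask_congr (P := pre l i) h)
      dep' := fun i x y h => by
        exact congrArg (hkey l' 1 i) (mask_congr (P := pre l' i) h)
      sep := fun x _ y _ h => mask_eq (hkey_inj h).2.2
      sep' := fun x _ y _ h => mask_eq (hkey_inj h).2.2
      new := fun i x y hi =>
        ⟨fun h => hi (hkey_inj h).2.1, fun h => hi (hkey_inj h).2.1⟩
      mix := fun i x j y h => hl.ne' (show l = l' from congrArg Prod.fst h)
      size := fun x _ => Mk_main m l _ _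
      size' := fun x _ => by
        show Mk m (hkey l' 1 (fam (era l + 2)) _) =
          pr (fam (era l + 2)) ^ av (ef m 1 l) (fam (era l + 2))
        rw [Mk_main, e2, e1, e3]
      PR := by
        show {fam (era l)} ⊆ pre l (fam (era l + 2))
        rw [singleton_subset_iff]
        exact fam_mem_pre l
      PR' := by
        show {fam (era l)} ⊆ pre l' (fam (era l + 2))
        rw [singleton_subset_iff, ← he]
        exact fam_mem_pre l'
      RP := by
        show fam (era l + 2) ∉ ({fam (era l)} : Finset (Fin 3))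
        rw [mem_singleton]
        exact hR
      statR := by
        show av l' (fam (era l + 2)) = av (ef m 1 l) (fam (era l + 2))
        rw [e1, e3] }

/-- the degrees -/
theorem mp_st (he : era l' = era l) (hl : l' < l) (hs : 60 * (l - l') ≤ l) (h3 : bb 3 ≤ l') :
    (mp m l' l).St where
  stat := fun i hi => by
    have hi' : i ≠ fam (era l) := fun h => hi (mem_singleton.2 h)
    exact av_pair hl.le he i hi'
  grow := fun i hi => by
    have hi' : i = fam (era l) := mem_singleton.1 hi
    subst hi'
    have h1 := cnt_same_era hl.le he (fam (era l))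
    rw [if_pos rfl] at h1
    have h2 := Pool.Agent.Helper63.ET.cnt_ge h3 (fam (era l))
    show av l (fam (era l)) ≤ 2 * av l' (fam (era l)) + 1
    unfold av
    omega

/-! ## dictionary -/

theorem mp_cd (hM : (mp m l' l).Ok (Mk m)) (w : Key → ℕ) (x : Fin 3 → ℕ) :
    (mp m l' l).cd hM w x = c1 m l w x := rfl

theorem mp_cd' (hM : (mp m l' l).Ok (Mk m)) (w : Key → ℕ) (x : Fin 3 → ℕ) :
    (mp m l' l).cd' hM w x = c1 m l' w x := rfl

theorem mp_N0 : (mp m l' l).N0 = Nj l' := rfl

theorem mp_Ne : (mp m l' l).Ne = FF m l 0 := rfl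

theorem mp_Ne' : (mp m l' l).Ne' = FF m l' 0 := rfl

theorem mp_q (hm : 1 < m) (hb : 10 * m ≤ la (era l)) (hu : used m l) :
    (mp m l' l).q = pr (fam (era l + 2)) ^ cnt (fam (era l + 2)) l := by
  show pr (fam (era l + 2)) ^ av (ef m 1 l) (fam (era l + 2)) = _
  rw [av_front hm hb hu _ (fam_ne _)]
  rfl

/-- the decoding constant -/
theorem mp_C : (mp m l' l).C ≤ (2 * 1000036) ^ 3 := by
  show ∏ i, (2 * (pr i - 1)) ≤ _
  rw [Fin.prod_univ_three]
  simp only [pr, Matrix.cons_val_zero, Matrix.cons_val_one, Matrix.cons_val]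
  norm_num

/-- the label number of a class modulo the front of the lower state: only the growing family
counts -/
theorem mp_Lam (hm : 1 < m) (hb : 10 * m ≤ la (era l)) (hu' : used m l')
    (he : era l' = era l) (hl : l' < l) :
    (mp m l' l).Lam =
      pr (fam (era l)) ^ ((cnt (fam (era l)) l + cnt (fam (era l)) l' -
        2 * cnt (fam (era l)) (ef m 1 l')) / 2) := by
  have hb' : 10 * m ≤ la (era l') := by rw [he]; exact hb
  unfold MP.Lam
  show ∏ i ∈ univ.erase (fam (era l + 2)), pr i ^ ((av l i + av l' i - 2 * av (ef m 1 l') i) / 2)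
    = _
  rw [prod_eq_single (fam (era l))]
  · rfl
  · intro i _ hi
    have h1 := av_pair hl.le he i hi
    have h2 : av (ef m 1 l') i = av l' i := av_front hm hb' hu' i (by rw [he]; exact hi)
    rw [h1, h2]
    have : (av l' i + av l' i - 2 * av l' i) / 2 = 0 := by omega
    rw [this, pow_zero]
  · intro h
    exact absurd (mem_erase.2 ⟨(fam_ne _).symm, mem_univ _⟩) h

end

/-! ## keys -/

theorem mask_le (P : Finset (Fin 3)) (x : Fin 3 → ℕ) (g : Fin 3) : mask P x g ≤ x g := by
  unfold mask
  split_ifs
  · exact le_rfl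
  · exact Nat.zero_le _

/-- the keys of the main level -/
theorem hkey_mem (m k l : ℕ) {x : Fin 3 → ℕ} (hx : x ∈ X1 l) (P : Finset (Fin 3)) (i : Fin 3) :
    hkey l 1 i (mask P x) ∈ keysOf m k l := by
  unfold hkey keysOf
  simp only [mem_product, mem_singleton, mem_range, Fintype.mem_piFinset, true_and]
  refine ⟨by omega, by omega, fun g => ?_⟩
  have h1 := mask_le P x g
  obtain ⟨-, -, -, h2⟩ := mem_X1 hx g
  have h3 := Pool.Agent.Helper30.ET.fam_pow_le_Nj g l
  unfold Bd
  have h4 : pr g ^ av l g ≤ Nj l := h3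
  omega

end Pool.Agent.Helper96.T5
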